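import Pool.Agent.Q48.RD.MomS2

/-!
# Primes `n` for which `a_1 n + 1, …, a_s n + 1` are primes, in short intervals: all moments

Let `{a_1, …, a_s}`, `s ≥ 1`, be an admissible set. We count the primes `n` in `(x, x + T]` for which all the numbers `a_j n + 1` are primes, and the
almost primes `n` for which all the numbers `a_j n + 1` are almost primes.

Let `g ≥ 2` be a base and `K` a large number of digits. For every `i < K` let `A i` be an arbitrary set of digits, such that the number
`|A 0| ⋯ |A (K - 1)|` of the integers `t < g ^ K` whose `i`-th digit belongs to `A i` for all `i < K` is at least `exp (- δ K) g ^ K`.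
Let `N ≤ g ^ (E K)` be arbitrary. We consider the numbers `x = N + t` with these `t`: they form a set with only
`y ^ (1 - δ')` elements in an interval of length `y = g ^ K`, which may be an arbitrarily small power of `x`.

Let `k ≥ 1` and `T ≤ g ^ (E K)`. The conjecture of Hardy and Littlewood (Dickson) for the `k` systems shifted by `h_1, …, h_k`, averaged
over all `h_1, …, h_k ≤ T`, predicts that the mean value of the `k`-th power of this number has the order of magnitude of
`(T / K ^ (s + 1)) ^ k` for `T ≥ K ^ (s + 1)` and of `T / K ^ (s + 1)` for `T ≤ K ^ (s + 1)`. We prove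

(1) the upper bound of this order for the primes, for `x` in all these sets;

(2) the exact order of magnitude for the almost primes;

(3) that a positive proportion (for `T ≤ K ^ (s + 1)`: the expected proportion `T / K ^ (s + 1)`) of the intervals `(x, x + T]` contains the
expected number of such integers, with almost primes.
-/

set_option autoImplicit false

namespace Pool.Agent.Results.MP_bca3e5_nt.MomentsInShortIntervals

open Filter Finset
open Pool.Agent.Q315.RD Pool.Agent.Q48.RD

/-- `a_1, …, a_s` are distinct positive integers, and no prime `p` divides `n (a_1 n + 1) ⋯ (a_s n + 1)` for every `n ≥ 1`. -/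
structure Admissible {s : ℕ} (a : Fin s → ℕ) : Prop where
  inj : Function.Injective a
  pos : ∀ j, 1 ≤ a j
  adm : ∀ p : ℕ, p.Prime → ∃ n : ℕ, 1 ≤ n ∧ ¬ p ∣ n * ∏ j, (a j * n + 1)

/-- The number of the primes `n` with `x < n ≤ x + T` for which all the numbers `a_j n + 1` are primes. -/
def primesIn {s : ℕ} (a : Fin s → ℕ) (x T : ℕ) : ℕ := ((Ioc x (x + T)).filter fun n => n.Prime ∧ ∀ j, (a j * n + 1).Prime).card

open Classical in
/-- The number of the `n` with `x < n ≤ x + T` for which `n` and all the numbers `a_j n + 1` have at most `r` prime factors, all larger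
than `y ^ (1 / r)`. -/
noncomputable def almostPrimesIn (y r : ℕ) {s : ℕ} (a : Fin s → ℕ) (x T : ℕ) : ℕ :=
  ((Ioc x (x + T)).filter fun n => AlmostPrime y r n ∧ ∀ j, AlmostPrime y r (a j * n + 1)).card

open Classical in
/-- The integers `t < g ^ K` whose `i`-th digit belongs to `A i` for all `i < K`. -/
noncomputable def digitSet (g K : ℕ) (A : ℕ → Finset ℕ) : Finset ℕ := (range (g ^ K)).filter (HasDigits g K A)

/-- The predicted order of magnitude of the mean value of the `k`-th power: `T / K ^ m` for `T ≤ K ^ m` and `(T / K ^ m) ^ k` for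
`T ≥ K ^ m`. -/
noncomputable def order (m k T K : ℕ) : ℝ := min 1 ((T : ℝ) / (K : ℝ) ^ m) * max 1 ((T : ℝ) / (K : ℝ) ^ m) ^ k

/-- **All moments of the number of the primes `n` with all `a_j n + 1` prime in short intervals.** -/
theorem result {s : ℕ} (_hs : 1 ≤ s) (a : Fin s → ℕ) (h : Admissible a) (k : ℕ) (hk : 1 ≤ k) (E : ℕ) :
    ∃ δ : ℝ, 0 < δ ∧ ∃ r₀ : ℕ, 2 ≤ r₀ ∧ ∀ r : ℕ, r₀ ≤ r → ∀ g : ℕ, 2 ≤ g → ∃ κ C : ℝ, 0 < κ ∧ 0 < C ∧
      ∀ᶠ K : ℕ in atTop, ∀ N T : ℕ, N ≤ g ^ (E * K) → 1 ≤ T → T ≤ g ^ (E * K) →
        ∀ A : ℕ → Finset ℕ, (∀ i < K, A i ⊆ range g) → (g : ℝ) ^ K ≤ Real.exp (δ * K) * choices K A →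
        -- the primes
        ∑ t ∈ digitSet g K A, (primesIn a (N + t) T : ℝ) ^ k ≤ C * order (s + 1) k T K * choices K A ∧
        -- the almost primes
        ∑ t ∈ digitSet g K A, (almostPrimesIn (g ^ K) r a (N + t) T : ℝ) ^ k ≤ C * order (s + 1) k T K * choices K A ∧
        (g ≤ T →
          κ * order (s + 1) k T K * choices K A ≤ ∑ t ∈ digitSet g K A, (almostPrimesIn (g ^ K) r a (N + t) T : ℝ) ^ k ∧
          κ * min 1 ((T : ℝ) / (K : ℝ) ^ (s + 1)) * choices K A ≤
            (((digitSet g K A).filter fun t => κ * max 1 ((T : ℝ) / (K : ℝ) ^ (s + 1)) ≤ almostPrimesIn (g ^ K) r a (N + t) T).card : ℝ)) := by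
  classical
  have hnp : ∀ p : ℕ, p.Prime → ∃ n : ℕ, ¬ p ∣ n ∧ ∀ j, ¬ p ∣ a j * n + 1 := by
    intro p hp
    obtain ⟨n, -, hn⟩ := h.adm p hp
    refine ⟨n, fun h1 => hn (h1.mul_right _), fun j h1 => hn ((h1.trans (dvd_prod_of_mem (fun j => a j * n + 1) (mem_univ j))).mul_left _)⟩
  have ha2 : ∀ j, 2 ≤ a j := by
    intro j
    by_contra hlt
    have h1 : a j = 1 := by have := h.pos j; omega
    obtain ⟨n, hn1, hn2⟩ := hnp 2 Nat.prime_two
    have := hn2 j
    rw [h1] at this
    omega
  have hz : ∀ j, (2 : ℤ) ≤ a j := fun j => by exact_mod_cast ha2 j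
  obtain ⟨δ, hδ, r0, hr0, H⟩ := sysMoments (Fin.cons 1 a : Fin (s + 1) → ℕ) (Fin.cons 0 fun _ => 1 : Fin (s + 1) → ℤ)
    (fun j => by
      refine Fin.cases ?_ (fun i => ?_) j
      · simp
      · simpa using h.pos i)
    (fun j => by
      refine Fin.cases ?_ (fun i => ?_) j
      · simpa using isCoprime_one_left
      · simpa using isCoprime_one_right)
    (fun i j hij d h0 => by
      revert hij h0
      refine Fin.cases ?_ (fun i => ?_) i
      · refine Fin.cases ?_ (fun j => ?_) j
        · intro hij; exact absurd rfl hij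
        · intro _ h0
          simp only [Fin.cons_zero, Fin.cons_succ] at h0
          push_cast at h0
          have h1 := hz j
          have h2 : (a j : ℤ) ∣ 1 := ⟨-d, by linarith⟩
          have := Int.le_of_dvd one_pos h2
          omega
      · refine Fin.cases ?_ (fun j => ?_) j
        · intro _ h0
          simp only [Fin.cons_zero, Fin.cons_succ] at h0
          push_cast at h0
          have h1 := hz i
          have h2 : (a i : ℤ) ∣ 1 := ⟨d, by linarith⟩
          have := Int.le_of_dvd one_pos h2
          omega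
        · intro hij h0
          simp only [Fin.cons_succ] at h0
          have h1 := hz i
          have h2 := hz j
          have hne : (a i : ℤ) ≠ a j := fun h3 => hij (congrArg _ (h.inj (by exact_mod_cast h3)))
          push_cast at h0
          have h4 : ((a i : ℤ) * a j) ∣ (a i - a j) := ⟨-d, by linarith⟩
          have h5 : (a i : ℤ) - a j = 0 := by
            apply Int.eq_zero_of_abs_lt_dvd h4
            rw [abs_lt]
            constructor <;> nlinarith
          exact hne (by linarith))
    (fun p hp => by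
      obtain ⟨n, hn1, hn2⟩ := hnp p hp
      refine ⟨n, fun j => ?_⟩
      refine Fin.cases ?_ (fun i => ?_) j
      · intro h1
        simp only [Fin.cons_zero] at h1
        apply hn1
        have h2 : (p : ℤ) ∣ (n : ℤ) := by simpa using h1
        exact_mod_cast h2
      · intro h1
        simp only [Fin.cons_succ] at h1
        apply hn2 i
        exact_mod_cast h1)
    (Fin.cons (fun n => n) (fun j n => a j * n + 1) : Fin (s + 1) → ℕ → ℕ)
    (fun j n _ => by
      refine Fin.cases ?_ (fun i => ?_) j
      · simp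
      · simp) k hk E
  simp only [Fin.forall_fin_succ, Fin.cons_zero, Fin.cons_succ] at H
  refine ⟨δ, hδ, r0, hr0, fun r hr g hg => ?_⟩
  obtain ⟨κ, C, hκ, hC, H⟩ := H r hr g hg
  refine ⟨κ, C, hκ, hC, ?_⟩
  filter_upwards [H] with K HK
  intro N T hN hT1 hT A hA1 hA2
  obtain ⟨h1, h2, h3⟩ := HK N T hN hT1 hT A ⟨hA1, hA2⟩
  have e1 : ∀ x, primesIn a x T = numIn (fun n => n.Prime ∧ ∀ j, (a j * n + 1).Prime) x T := by
    intro x
    unfold primesIn numIn
    congr!
  have e2 : ∀ x, almostPrimesIn (g ^ K) r a x T = numIn (fun n => AlmostPrime (g ^ K) r n ∧ ∀ j, AlmostPrime (g ^ K) r (a j * n + 1)) x T := by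
    intro x
    unfold almostPrimesIn numIn
    congr!
  simp only [e1, e2]
  refine ⟨h1, h2, fun hgT => ⟨(h3 hgT).1, (h3 hgT).2.trans (le_of_eq ?_)⟩⟩
  unfold count digitSet
  rw [filter_filter]

end Pool.Agent.Results.MP_bca3e5_nt.MomentsInShortIntervals
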