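import Pool.Agent.Q25.Arb3

set_option autoImplicit false

/-!
# Regular points of ARBITRARY sets of primes `n` for which the `a n + 1`, `a ∈ T`, are primes

Let `T` be an admissible set of `s` positive integers and let `A` be an ARBITRARY set of primes `n` for which all the
numbers `a n + 1`, `a ∈ T`, are primes (for example the set of all of them). In every short interval `(X, X + Y]`,
`X ^ θ ≤ Y ≤ X / 2`, all but `ε Y / (log X) ^ (s + 1)` of the elements of `A` are regular points of `A`: the numbers of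
elements of `A` in ALL intervals around the point of length between `(log X) ^ (s + 1) / c` and `Y` have the conjectured
order of magnitude, and `A` has constant density up to `δ` on both sides of the point at all but `B (ε, δ)` dyadic
scales. The same holds for sets of primes `n` for which the `a n + 1` have no prime factor up to `n ^ (1 / r)`, of which
there are at least `κ X / (log X) ^ (s + 1)` in `(X, 2 X]`, even with at most `r` prime factors of each `a n + 1`.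
-/

namespace Pool.Agent.Results.MP_bca3e5_nt.RegularPoints

open Finset Filter Pool.Agent.Q25.Arb

/-- the set `T` of positive integers is admissible in the sense of the problem -/
def Admissible (T : Finset ℕ) : Prop :=
  ∀ p : ℕ, p.Prime → ¬ ∀ n : ℕ, 1 ≤ n → p ∣ n * ∏ a ∈ T, (a * n + 1)

/-- `n` is a prime, and all prime factors of the numbers `a n + 1`, `a ∈ T`, are larger than `n ^ (1 / r)` -/
def PrimeRough (T : Finset ℕ) (r n : ℕ) : Prop :=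
  n.Prime ∧ ∀ a ∈ T, ∀ p : ℕ, p.Prime → p ∣ a * n + 1 → (n : ℝ) ^ (1 / (r : ℝ)) < p

lemma cast_eq (a n : ℕ) : ((a : ℕ) : ℤ) * (n : ℤ) + 1 = ((a * n + 1 : ℕ) : ℤ) := by push_cast; ring

lemma adm (T : Finset ℕ) (h : Admissible T) (p : ℕ) (hp : p.Prime) :
    ∃ m : ℕ, ¬ p ∣ m ∧ ∀ i : {x // x ∈ T}, ¬ (p : ℤ) ∣ ((i.1 : ℕ) : ℤ) * m + 1 := by
  have h1 := h p hp
  push Not at h1
  obtain ⟨m, _, hm⟩ := h1
  refine ⟨m, fun hd => hm (hd.mul_right _), fun i hd => hm ?_⟩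
  rw [cast_eq, Int.natCast_dvd_natCast] at hd
  exact (hd.trans (dvd_prod_of_mem (fun a => a * m + 1) i.2)).mul_left _

/-- primes `n` for which the `a n + 1` are primes -/
lemma prime_rough (T : Finset ℕ) (hT : ∀ a ∈ T, 1 ≤ a) (r : ℕ) (hr : 2 ≤ r) (n : ℕ) (h : n.Prime)
    (h2 : ∀ a ∈ T, (a * n + 1).Prime) : PrimeRough T r n := by
  refine ⟨h, fun a ha p hp hd => ?_⟩
  have h3 : p = a * n + 1 := (Nat.prime_dvd_prime_iff_eq hp (h2 a ha)).1 hd
  apply Pool.Agent.TH977.PW.rpow_lt_of_le r n p hr h.two_le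
  have := hT a ha
  rw [h3]
  nlinarith [h.two_le]

/-- **Regular points of arbitrary sets of primes `n` for which the `a n + 1` are primes.** -/
theorem result (T : Finset ℕ) (hT : ∀ a ∈ T, 1 ≤ a) (h : Admissible T) (θ : ℝ) (hθ : 0 < θ) (hθ1 : θ ≤ 1) :
    (∀ ε : ℝ, 0 < ε → ∃ c : ℝ, 0 < c ∧ ∀ δ : ℝ, 0 < δ → ∃ B : ℕ, ∀ᶠ X : ℕ in atTop, ∀ Y : ℕ,
      (X : ℝ) ^ θ ≤ Y → 2 * Y ≤ X → ∀ A : Set ℕ, (∀ n ∈ A, n.Prime ∧ ∀ a ∈ T, (a * n + 1).Prime) →
        (N (Irregular A (T.card + 1) c δ B X Y) X (X + Y) : ℝ) ≤ ε * (Y / Real.log X ^ (T.card + 1))) ∧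
    ∃ r₀ : ℕ, ∀ r : ℕ, r₀ ≤ r →
      (∀ ε : ℝ, 0 < ε → ∃ c : ℝ, 0 < c ∧ ∀ δ : ℝ, 0 < δ → ∃ B : ℕ, ∀ᶠ X : ℕ in atTop, ∀ Y : ℕ,
        (X : ℝ) ^ θ ≤ Y → 2 * Y ≤ X → ∀ A : Set ℕ, (∀ n ∈ A, PrimeRough T r n) →
          (N (Irregular A (T.card + 1) c δ B X Y) X (X + Y) : ℝ) ≤ ε * (Y / Real.log X ^ (T.card + 1))) ∧
      ∃ κ : ℝ, 0 < κ ∧ ∀ᶠ X : ℕ in atTop, κ * (X / Real.log X ^ (T.card + 1)) ≤
        (N {n | PrimeRough T r n ∧ ∀ a ∈ T, (a * n + 1).primeFactorsList.length ≤ r} X (2 * X) : ℝ) := by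
  obtain ⟨r0, hr0, h0⟩ := Pool.Agent.TH977.PW.final_lin_prime (fun i : {x // x ∈ T} => (i.1 : ℕ)) (fun _ => 1)
    (fun i => hT i.1 i.2) (fun i => isCoprime_one_right) (fun i j h1 _ => Subtype.ext h1)
    (fun i h1 => one_ne_zero h1.2) (adm T h) (fun r => {n | PrimeRough T r n})
    (fun r => {n | PrimeRough T r n ∧ ∀ a ∈ T, (a * n + 1).primeFactorsList.length ≤ r}) (T.card + 1)
    (by rw [Fintype.card_coe])
    (fun r m hr hm => ⟨fun p hp hd => Pool.Agent.TH977.PW.rpow_lt_dvd r m p hr hm.1 hp hd, fun i p hp hd => by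
      rw [cast_eq, Int.natCast_dvd_natCast] at hd
      exact hm.2 i.1 i.2 p hp hd⟩)
    (fun r m hr hm h1 h2 => ⟨⟨hm, fun a ha p hp hd => h1 ⟨a, ha⟩ p hp (by
      rw [cast_eq, Int.natCast_dvd_natCast]
      exact hd)⟩, fun a ha => by
      have h3 := h2 ⟨a, ha⟩
      simp only [cast_eq, Int.natAbs_natCast] at h3
      exact h3⟩) θ hθ hθ1
  have key : ∀ r : ℕ, r0 ≤ r → ∀ ε : ℝ, 0 < ε → ∃ c : ℝ, 0 < c ∧ ∀ δ : ℝ, 0 < δ → ∃ B : ℕ,
      ∀ᶠ X : ℕ in atTop, ∀ Y : ℕ,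
      (X : ℝ) ^ θ ≤ Y → 2 * Y ≤ X → ∀ A : Set ℕ, (∀ n ∈ A, PrimeRough T r n) →
        (N (Irregular A (T.card + 1) c δ B X Y) X (X + Y) : ℝ) ≤ ε * (Y / Real.log X ^ (T.card + 1)) := by
    intro r hr ε hε
    obtain ⟨c, hc, h2⟩ := (h0 r hr).2 ε hε
    refine ⟨c, hc, fun δ hδ => ?_⟩
    obtain ⟨B, h3⟩ := h2 δ hδ
    refine ⟨B, ?_⟩
    filter_upwards [h3] with X hX Y hXY hYX A hA
    have h4 := hX Y hXY hYX A (fun p hp => hA p hp)
    rw [N_eq, Irregular_eq]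
    calc _ ≤ ε * Y / Real.log X ^ (T.card + 1) := h4
      _ = _ := by ring
  refine ⟨?_, r0, fun r hr => ⟨key r hr, ?_⟩⟩
  · intro ε hε
    obtain ⟨c, hc, h2⟩ := key r0 le_rfl ε hε
    refine ⟨c, hc, fun δ hδ => ?_⟩
    obtain ⟨B, h3⟩ := h2 δ hδ
    refine ⟨B, ?_⟩
    filter_upwards [h3] with X hX Y hXY hYX A hA
    exact hX Y hXY hYX A (fun n hn => prime_rough T hT r0 hr0 n (hA n hn).1 (hA n hn).2)
  · obtain ⟨κ, hκ, h2⟩ := (h0 r hr).1
    refine ⟨κ, hκ, ?_⟩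
    filter_upwards [h2] with X hX
    rw [N_eq]
    calc κ * (X / Real.log X ^ (T.card + 1)) = κ * X / Real.log X ^ (T.card + 1) := by ring
      _ ≤ _ := hX

end Pool.Agent.Results.MP_bca3e5_nt.RegularPoints
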