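import Pool.Agent.Q25.UReg3

/-!
# The laws of the almost prime tuples `n, a_1 n + 1, ..., a_s n + 1`, uniformly in the `a_i`

All admissible sets of `s ≥ 1` distinct positive integers `a_i ≤ X ^ E`. A number `n` is good if none of `n` and the
`a_i n + 1` has a prime factor `≤ X ^ (1/r)`. In ALL intervals of length at least `X ^ θ` the numbers of the good integers in
windows follow the Poisson law, the gaps between the good integers are exponentially distributed, and almost all elements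
of an ARBITRARY set of good integers (for instance of the primes `n` with all `a_i n + 1` prime) are regular points of this
set, all this uniformly in the `a_i` and in the intervals.
-/

set_option autoImplicit false

namespace Pool.Agent.Results.MP_bca3e5_nt.UniformLaws

open Finset
open Pool.Agent.Q25.UReg (Good V count pois PoissonLaw GapLaw N RightOrder ConstantDensity badScales Irregular)

/-- the coefficients of the forms `n`, `a_i n + 1` -/
def co {s : ℕ} (a : Fin s → ℕ) : Fin (s + 1) → ℤ := Fin.cons 1 (fun i => (a i : ℤ))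

/-- the constant terms of the forms `n`, `a_i n + 1` -/
def ct (s : ℕ) : Fin (s + 1) → ℤ := Fin.cons 0 (fun _ => 1)

/-- admissible sets of distinct positive integers, as in the problem, with elements `≤ H` -/
structure Admissible {s : ℕ} (H : ℝ) (a : Fin s → ℕ) : Prop where
  inj : Function.Injective a
  pos : ∀ i, 1 ≤ a i
  le : ∀ i, (a i : ℝ) ≤ H
  adm : ∀ p : ℕ, p.Prime → ∃ n : ℕ, 1 ≤ n ∧ ¬ p ∣ n * ∏ i, (a i * n + 1)

lemma Admissible.adm' {s : ℕ} {H : ℝ} {a : Fin s → ℕ} (h : Admissible H a) (p : ℕ) (hp : p.Prime) :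
    ∃ m : ℕ, ∀ i, ¬ (p : ℤ) ∣ co a i * (m : ℤ) + ct s i := by
  obtain ⟨n, -, hn⟩ := h.adm p hp
  refine ⟨n, fun i => ?_⟩
  refine Fin.cases ?_ (fun i => ?_) i
  · change ¬ (p : ℤ) ∣ 1 * (n : ℤ) + 0
    intro h1
    rw [one_mul, add_zero] at h1
    exact hn (dvd_mul_of_dvd_left (by exact_mod_cast h1) _)
  · change ¬ (p : ℤ) ∣ (a i : ℤ) * (n : ℤ) + 1
    intro h1
    exact hn (dvd_mul_of_dvd_right ((by exact_mod_cast h1 : p ∣ a i * n + 1).trans
      (dvd_prod_of_mem (fun i => a i * n + 1) (mem_univ i))) _)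

lemma Admissible.two_le {s : ℕ} {H : ℝ} {a : Fin s → ℕ} (h : Admissible H a) (i : Fin s) : a i ≠ 1 := by
  intro h1
  obtain ⟨n, -, hn⟩ := h.adm 2 Nat.prime_two
  apply hn
  rcases Nat.even_or_odd n with h2 | h2
  · exact dvd_mul_of_dvd_left h2.two_dvd _
  · refine dvd_mul_of_dvd_right (Dvd.dvd.trans ?_ (dvd_prod_of_mem (fun i => a i * n + 1) (mem_univ i))) _
    change 2 ∣ a i * n + 1
    rw [h1, one_mul]
    obtain ⟨m, hm⟩ := h2
    exact ⟨m + 1, by omega⟩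

/-- **The laws of the almost prime tuples `n, a_1 n + 1, ..., a_s n + 1`, uniformly in the `a_i`.** -/
theorem result (s : ℕ) (hs : 1 ≤ s) (E θ : ℝ) (hE : 0 < E) (hθ : 0 < θ) :
    (∀ (l₀ : ℕ) (x₀ ε : ℝ), 0 < ε → ∃ r₀ : ℕ, ∀ r : ℕ, r₀ ≤ r → ∃ X₀ : ℕ, ∀ X : ℕ, X₀ ≤ X →
      ∀ a : Fin s → ℕ, Admissible ((X : ℝ) ^ E) a → ∀ Z Y : ℕ, (X : ℝ) ^ θ ≤ Y →
          PoissonLaw (co a) (ct s) r X Z Y x₀ ε ∧ GapLaw (co a) (ct s) r X Z Y l₀ x₀ ε) ∧
    ∃ r₀ : ℕ, ∀ r : ℕ, r₀ ≤ r → ∀ ε : ℝ, 0 < ε → ∃ c : ℝ, 0 < c ∧ ∀ δ : ℝ, 0 < δ → ∃ B X₀ : ℕ,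
      ∀ X : ℕ, X₀ ≤ X → ∀ a : Fin s → ℕ, Admissible ((X : ℝ) ^ E) a →
        ∀ u Y : ℕ, (X : ℝ) ^ θ ≤ Y → Y ≤ X → Y ≤ u → ∀ A : Set ℕ, (∀ n ∈ A, Good (co a) (ct s) r X n) →
          (N (Irregular A (V (co a) (ct s) r X) c δ B Y) u (u + Y) : ℝ) ≤ ε * (Y * V (co a) (ct s) r X) := by
  have hpos : ∀ (H : ℝ) (a : Fin s → ℕ), Admissible H a → ∀ i, 0 < co a i := by
    intro H a h i
    refine Fin.cases ?_ (fun i => ?_) i
    · exact one_pos
    · change (0 : ℤ) < (a i : ℤ)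
      exact_mod_cast h.pos i
  have hH : ∀ (H : ℝ), 1 ≤ H → ∀ (a : Fin s → ℕ), Admissible H a → ∀ i, (co a i : ℝ) ≤ H := by
    intro H hH a h i
    refine Fin.cases ?_ (fun i => ?_) i
    · change ((1 : ℤ) : ℝ) ≤ H
      simpa using hH
    · change (((a i : ℕ) : ℤ) : ℝ) ≤ H
      exact_mod_cast h.le i
  have h1H : ∀ (H : ℝ), 1 ≤ H → ∀ i, |(ct s i : ℝ)| ≤ H := by
    intro H hH i
    refine Fin.cases ?_ (fun i => ?_) i
    · change |((0 : ℤ) : ℝ)| ≤ H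
      simp
      linarith
    · change |((1 : ℤ) : ℝ)| ≤ H
      simpa using hH
  have hne : ∀ a : Fin s → ℕ, ∃ i j, ¬ (co a i = co a j ∧ ct s i = ct s j) := by
    intro a
    refine ⟨0, Fin.succ ⟨0, by omega⟩, fun h1 => ?_⟩
    have h2 : (0 : ℤ) = 1 := h1.2
    omega
  have hno : ∀ (H U : ℝ) (a : Fin s → ℕ), Admissible H a → Pool.Agent.Q25.UReg.NoTranslates (co a) (ct s) U := by
    intro H U a h i j t ht _ h2
    have ht' : (1 : ℤ) ≤ t := by exact_mod_cast ht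
    have h3 : (0 : ℤ) < co a j * t := mul_pos (hpos H a h j) (by omega)
    revert h2 h3
    refine Fin.cases ?_ (fun i => ?_) i
    · refine Fin.cases ?_ (fun j => ?_) j
      · intro h2 h3
        have h4 : (0 : ℤ) = 0 + 1 * t := h2.2
        omega
      · intro h2 h3
        have h4 : (0 : ℤ) = 1 + (a j : ℤ) * t := h2.2
        have h5 : (0 : ℤ) < (a j : ℤ) * t := h3
        omega
    · refine Fin.cases ?_ (fun j => ?_) j
      · intro h2 h3
        have h4 : (a i : ℤ) = 1 := h2.1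
        exact h.two_le i (by exact_mod_cast h4)
      · intro h2 h3
        have h4 : (1 : ℤ) = 1 + (a j : ℤ) * t := h2.2
        have h5 : (0 : ℤ) < (a j : ℤ) * t := h3
        omega
  have hone : ∀ X : ℕ, 1 ≤ X → (1 : ℝ) ≤ (X : ℝ) ^ E := fun X hX => Real.one_le_rpow (by exact_mod_cast hX) hE.le
  constructor
  · intro l₀ x₀ ε hε
    obtain ⟨r₀, _, h⟩ := Pool.Agent.Q25.UReg.lin_laws (s + 1) E 1 θ hE one_pos hθ l₀ x₀ ε hε
    refine ⟨r₀, fun r hr => ?_⟩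
    obtain ⟨X₀, hX₀⟩ := Filter.eventually_atTop.1 ((h r hr).and (Filter.eventually_ge_atTop 1))
    refine ⟨X₀, fun X hX a ha Z Y hY => ?_⟩
    obtain ⟨g1, g2⟩ := hX₀ X hX
    exact g1 (co a) (ct s) (hpos _ a ha) (hH _ (hone X g2) a ha) (h1H _ (hone X g2)) ha.adm' (hne a) (hno _ _ a ha) Z Y hY
  · obtain ⟨r₀, _, h⟩ := Pool.Agent.Q25.UReg.lin_reg (s + 1) E θ hE hθ
    refine ⟨r₀, fun r hr ε hε => ?_⟩
    obtain ⟨c, hc, h1⟩ := h r hr ε hε
    refine ⟨c, hc, fun δ hδ => ?_⟩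
    obtain ⟨B, hB⟩ := h1 δ hδ
    obtain ⟨X₀, hX₀⟩ := Filter.eventually_atTop.1 (hB.and (Filter.eventually_ge_atTop 1))
    refine ⟨B, X₀, fun X hX a ha u Y hXY hYX hYu A hA => ?_⟩
    obtain ⟨g1, g2⟩ := hX₀ X hX
    exact g1 (co a) (ct s) (hpos _ a ha) (hH _ (hone X g2) a ha) (h1H _ (hone X g2)) ha.adm' (hne a)
      u Y hXY hYX hYu A hA

end Pool.Agent.Results.MP_bca3e5_nt.UniformLaws
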